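import Mathlib

set_option autoImplicit false

open Filter
open scoped ENNReal Topology

namespace Pool.Agent.Y982.PW.Seq

/-- `τ g = ∑_{h ≥ g} (2h + 4) / 2^h`. -/
noncomputable def q (h : ℕ) : ℝ≥0∞ := ENNReal.ofReal (((2 : ℝ) * h + 4) * (1 / 2) ^ h)

lemma q_sum : ∑' h, q h ≠ ⊤ := by
  have hs : Summable (fun h : ℕ => ((2 : ℝ) * h + 4) * (1 / 2) ^ h) := by
    have ha : Summable (fun h : ℕ => (h : ℝ) * (1 / 2 : ℝ) ^ h) := by
      have := summable_pow_mul_geometric_of_norm_lt_one 1 (r := (1 / 2 : ℝ))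
        (by rw [Real.norm_eq_abs, abs_of_nonneg (by norm_num)]; norm_num)
      simpa using this
    have hb : Summable (fun h : ℕ => (1 / 2 : ℝ) ^ h) :=
      summable_geometric_of_lt_one (by norm_num) (by norm_num)
    refine ((ha.mul_left 2).add (hb.mul_left 4)).congr (fun h => by ring)
  unfold q
  rw [← ENNReal.ofReal_tsum_of_nonneg (fun h => by positivity) hs]
  exact ENNReal.ofReal_ne_top

/-- Tails. -/
noncomputable def τ (g : ℕ) : ℝ≥0∞ := ∑' h, q (h + g)

lemma τ_tendsto : Tendsto τ atTop (𝓝 0) := ENNReal.tendsto_sum_nat_add q q_sum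

lemma τ_anti : Antitone τ := by
  apply antitone_nat_of_succ_le
  intro g
  unfold τ
  rw [tsum_eq_zero_add' (f := fun h => q (h + g)) ENNReal.summable]
  refine le_trans (le_of_eq ?_) le_add_self
  apply tsum_congr
  intro h
  congr 1
  omega

lemma exists_t (φ : ℕ → ℝ) (hφ : ∀ n, 0 < φ n) (j : ℕ) :
    ∃ t : ℕ, ∀ n, n ≤ 6 * j → τ t ≤ ENNReal.ofReal (φ n) := by
  have h1 : ∀ n, ∀ᶠ t in atTop, τ t ≤ ENNReal.ofReal (φ n) := by
    intro n
    exact (τ_tendsto.eventually_lt_const (ENNReal.ofReal_pos.2 (hφ n))).mono (fun t h => h.le)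
  have h2 : ∀ᶠ t in atTop, ∀ n ∈ Finset.range (6 * j + 1), τ t ≤ ENNReal.ofReal (φ n) :=
    (Finset.eventually_all _).2 (fun n _ => h1 n)
  obtain ⟨t, ht⟩ := h2.exists
  exact ⟨t, fun n hn => ht n (Finset.mem_range.2 (by omega))⟩

/-- Slowly growing multiplicities (the number of parallel paths is `M h + 1`). -/
lemma exists_m (φ : ℕ → ℝ) (hφ : ∀ n, 0 < φ n) : ∃ m : ℕ → ℕ, Monotone m ∧
    Tendsto m atTop atTop ∧ (∀ h, m h ≤ h) ∧
    ∀ n h : ℕ, 7 ≤ n → n ≤ 6 * (m h + 1) → τ h ≤ ENNReal.ofReal (φ n) := by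
  classical
  choose t ht using exists_t φ hφ
  let u : ℕ → ℕ := fun j => if j = 0 then 0 else t (j + 1)
  refine ⟨fun h => Nat.findGreatest (fun j => u j ≤ h) h, ?_, ?_, ?_, ?_⟩
  · intro h h' hh
    exact Nat.findGreatest_mono (fun j hj => le_trans hj hh) hh
  · rw [tendsto_atTop]
    intro b
    filter_upwards [eventually_ge_atTop (max b (u b))] with h hh
    exact Nat.le_findGreatest (le_trans (le_max_left _ _) hh) (le_trans (le_max_right _ _) hh)
  · intro h
    exact Nat.findGreatest_le h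
  · intro n h hn hle
    have h1 : u (Nat.findGreatest (fun j => u j ≤ h) h) ≤ h :=
      Nat.findGreatest_spec (P := fun j => u j ≤ h) (Nat.zero_le h) (by simp [u])
    have hle' : n ≤ 6 * (Nat.findGreatest (fun j => u j ≤ h) h + 1) := hle
    have h2 : Nat.findGreatest (fun j => u j ≤ h) h ≠ 0 := by omega
    have h3 : t (Nat.findGreatest (fun j => u j ≤ h) h + 1) ≤ h := by
      simpa only [u, if_neg h2] using h1
    exact (τ_anti h3).trans (ht _ n hle')

/-- The state of the construction: number of states and accumulated resistance. -/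
noncomputable def st (m : ℕ → ℕ) : ℕ → ℝ × ℝ
  | 0 => (1, 0)
  | h + 1 =>
    let p := st m h
    let ν := if (1 + p.2) * (3 + p.2) ≤ 3 * ((m h : ℝ) + 1) then p.1 else 2 * p.1
    (ν, p.2 + 2 / (ν * ((m h : ℝ) + 1)))

open Classical in
/-- The splitting numbers. -/
noncomputable def sp (m : ℕ → ℕ) (h : ℕ) : ℕ :=
  if (1 + (st m h).2) * (3 + (st m h).2) ≤ 3 * ((m h : ℝ) + 1) then 0 else 1

lemma sp_le (m : ℕ → ℕ) (h : ℕ) : sp m h ≤ 1 := by
  unfold sp; split_ifs <;> norm_num

lemma st1_succ (m : ℕ → ℕ) (h : ℕ) : (st m (h + 1)).1 = (st m h).1 * ((sp m h : ℝ) + 1) := by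
  unfold sp
  simp only [st]
  split_ifs
  · simp
  · push_cast; ring

lemma st2_succ (m : ℕ → ℕ) (h : ℕ) :
    (st m (h + 1)).2 = (st m h).2 + 2 / ((st m (h + 1)).1 * ((m h : ℝ) + 1)) := by
  simp only [st]

lemma st1_ge (m : ℕ → ℕ) (h : ℕ) : 1 ≤ (st m h).1 := by
  induction h with
  | zero => simp [st]
  | succ h ih =>
    rw [st1_succ]
    have : (0 : ℝ) ≤ sp m h := Nat.cast_nonneg _
    nlinarith

lemma st2_inc (m : ℕ → ℕ) (h : ℕ) : 0 < 2 / ((st m (h + 1)).1 * ((m h : ℝ) + 1)) ∧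
    2 / ((st m (h + 1)).1 * ((m h : ℝ) + 1)) ≤ 2 := by
  have h1 := st1_ge m (h + 1)
  have h2 : (0 : ℝ) ≤ m h := Nat.cast_nonneg _
  have h3 : 0 < (st m (h + 1)).1 * ((m h : ℝ) + 1) := by positivity
  refine ⟨by positivity, ?_⟩
  rw [div_le_iff₀ h3]
  nlinarith

lemma st2_nonneg (m : ℕ → ℕ) (h : ℕ) : 0 ≤ (st m h).2 := by
  induction h with
  | zero => simp [st]
  | succ h ih =>
    rw [st2_succ]
    have := (st2_inc m h).1
    linarith

/-- The key estimate: the resistance of the powers is controlled by a potential. -/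
lemma step (m : ℕ → ℕ) (h : ℕ) :
    1 / ((st m (h + 1)).1 * ((m h : ℝ) + 1) * ((m h : ℝ) + 1)) ≤
      (1 / (st m h).1 - 1 / (st m (h + 1)).1) +
        3 * (1 / (1 + (st m h).2) - 1 / (1 + (st m (h + 1)).2)) := by
  have hN := st1_ge m h
  have hN1 := st1_ge m (h + 1)
  have hm : (0 : ℝ) ≤ m h := Nat.cast_nonneg _
  have hR := st2_nonneg m h
  have hinc := st2_inc m h
  have hR1 := st2_succ m h
  set δ : ℝ := 2 / ((st m (h + 1)).1 * ((m h : ℝ) + 1)) with hδ
  have hGd : 1 / (1 + (st m h).2) - 1 / (1 + (st m (h + 1)).2)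
      = δ / ((1 + (st m h).2) * (1 + (st m h).2 + δ)) := by
    rw [hR1]
    have h1 : 1 + (st m h).2 ≠ 0 := by positivity
    have h2 : 1 + ((st m h).2 + δ) ≠ 0 := by have := hinc.1; positivity
    have h3 : 1 + (st m h).2 + δ ≠ 0 := by have := hinc.1; positivity
    field_simp
    ring
  have hG0 : δ / ((1 + (st m h).2) * (3 + (st m h).2))
      ≤ 1 / (1 + (st m h).2) - 1 / (1 + (st m (h + 1)).2) := by
    rw [hGd]
    apply div_le_div_of_nonneg_left hinc.1.le
    · have := hinc.1; positivity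
    · apply mul_le_mul_of_nonneg_left _ (by positivity)
      have := hinc.2
      linarith
  have hc : 1 / ((st m (h + 1)).1 * ((m h : ℝ) + 1) * ((m h : ℝ) + 1))
      = δ / (2 * ((m h : ℝ) + 1)) := by
    rw [hδ]
    have h1 : (st m (h + 1)).1 ≠ 0 := by positivity
    have h2 : (m h : ℝ) + 1 ≠ 0 := by positivity
    field_simp
  by_cases hcase : (1 + (st m h).2) * (3 + (st m h).2) ≤ 3 * ((m h : ℝ) + 1)
  · have hsp : sp m h = 0 := by unfold sp; rw [if_pos hcase]
    have e1 : (st m (h + 1)).1 = (st m h).1 := by rw [st1_succ, hsp]; simp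
    rw [hc, e1, sub_self, zero_add]
    have h3 : δ / (2 * ((m h : ℝ) + 1)) ≤ 3 * (δ / ((1 + (st m h).2) * (3 + (st m h).2))) := by
      have hpos : 0 < (1 + (st m h).2) * (3 + (st m h).2) := by positivity
      have e2 : 3 * (δ / ((1 + (st m h).2) * (3 + (st m h).2)))
          = δ / ((1 + (st m h).2) * (3 + (st m h).2) / 3) := by
        field_simp
      rw [e2]
      apply div_le_div_of_nonneg_left hinc.1.le (by positivity)
      linarith
    linarith
  · have hsp : sp m h = 1 := by unfold sp; rw [if_neg hcase]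
    have e1 : (st m (h + 1)).1 = 2 * (st m h).1 := by rw [st1_succ, hsp]; push_cast; ring
    have h4 : 1 / ((st m (h + 1)).1 * ((m h : ℝ) + 1) * ((m h : ℝ) + 1))
        ≤ 1 / (st m (h + 1)).1 := by
      apply one_div_le_one_div_of_le (by positivity)
      have h5 : 1 ≤ ((m h : ℝ) + 1) * ((m h : ℝ) + 1) := by nlinarith
      nlinarith
    have h6 : 1 / (st m h).1 - 1 / (st m (h + 1)).1 = 1 / (st m (h + 1)).1 := by
      rw [e1]
      have h1 : (st m h).1 ≠ 0 := by positivity
      field_simp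
      ring
    have h7 : 0 ≤ 1 / (1 + (st m h).2) - 1 / (1 + (st m (h + 1)).2) := by
      refine le_trans ?_ hG0
      have := hinc.1
      positivity
    linarith

lemma sum_bound (m : ℕ → ℕ) (H : ℕ) :
    ∑ h ∈ Finset.range H, 1 / ((st m (h + 1)).1 * ((m h : ℝ) + 1) * ((m h : ℝ) + 1)) ≤ 4 := by
  have h1 : ∀ H, ∑ h ∈ Finset.range H, 1 / ((st m (h + 1)).1 * ((m h : ℝ) + 1) * ((m h : ℝ) + 1))
      ≤ (1 - 1 / (st m H).1) + 3 * (1 - 1 / (1 + (st m H).2)) := by
    intro H
    induction H with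
    | zero => simp [st]
    | succ H ih =>
      rw [Finset.sum_range_succ]
      have := step m H
      linarith
  have h2 := h1 H
  have h3 : 0 ≤ 1 / (st m H).1 := by have := st1_ge m H; positivity
  have h4 : 0 ≤ 1 / (1 + (st m H).2) := by have := st2_nonneg m H; positivity
  linarith

/-- The accumulated resistance is infinite. -/
lemma st2_tendsto (m : ℕ → ℕ) (hm : Tendsto m atTop atTop) (hmle : ∀ h, m h ≤ h) :
    Tendsto (fun h => (st m h).2) atTop atTop := by
  have hmono : Monotone (fun h => (st m h).2) := by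
    apply monotone_nat_of_le_succ
    intro h
    have h1 := st2_succ m h
    have h2 := (st2_inc m h).1
    show (st m h).2 ≤ (st m (h + 1)).2
    linarith
  rcases tendsto_of_monotone hmono with h | ⟨l, hl⟩
  · exact h
  exfalso
  have hle : ∀ h, (st m h).2 ≤ l := fun h => hmono.ge_of_tendsto hl h
  -- eventually no more splitting
  have h1 : ∀ᶠ h in atTop, (1 + l) * (3 + l) ≤ (m h : ℝ) :=
    (tendsto_natCast_atTop_atTop.comp hm).eventually_ge_atTop _
  obtain ⟨h0, hh0⟩ := eventually_atTop.1 h1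
  have hconst : ∀ i, (st m (h0 + i)).1 = (st m h0).1 := by
    intro i
    induction i with
    | zero => rfl
    | succ i ih =>
      have e1 : h0 + (i + 1) = (h0 + i) + 1 := by ring
      rw [e1, st1_succ, ih]
      have h2 := hh0 (h0 + i) (by omega)
      have h3 := hle (h0 + i)
      have h4 := st2_nonneg m (h0 + i)
      have h5 : sp m (h0 + i) = 0 := by
        unfold sp
        rw [if_pos]
        nlinarith
      rw [h5]
      simp
  -- divergence of the harmonic series
  have h6 : ∀ n, (2 / (st m h0).1) * (∑ i ∈ Finset.range n, 1 / (((i : ℝ)) + 1) -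
      ∑ i ∈ Finset.range h0, 1 / (((i : ℝ)) + 1)) ≤ l := by
    intro n
    have hpos : 0 < 2 / (st m h0).1 := by have := st1_ge m h0; positivity
    have key : ∀ i, (2 / (st m h0).1) * (∑ j ∈ Finset.range (h0 + i), 1 / (((j : ℝ)) + 1) -
      ∑ j ∈ Finset.range h0, 1 / (((j : ℝ)) + 1)) ≤ (st m (h0 + i)).2 := by
      intro i
      induction i with
      | zero => simpa using st2_nonneg m h0
      | succ i ih =>
        have e1 : h0 + (i + 1) = (h0 + i) + 1 := by ring
        rw [e1, Finset.sum_range_succ, st2_succ]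
        have h7 : (2 / (st m h0).1) * (1 / (((h0 + i : ℕ) : ℝ) + 1))
            ≤ 2 / ((st m (h0 + i + 1)).1 * ((m (h0 + i) : ℝ) + 1)) := by
          have e2 := hconst (i + 1)
          rw [e1] at e2
          rw [e2]
          have h8 : (m (h0 + i) : ℝ) ≤ ((h0 + i : ℕ) : ℝ) := by exact_mod_cast hmle (h0 + i)
          have h9 := st1_ge m h0
          have h10 : (0 : ℝ) ≤ m (h0 + i) := Nat.cast_nonneg _
          rw [div_mul_div_comm, mul_one]
          apply div_le_div_of_nonneg_left (by norm_num) (by positivity)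
          apply mul_le_mul_of_nonneg_left _ (by positivity)
          linarith
        have e3 : (2 / (st m h0).1) * (∑ j ∈ Finset.range (h0 + i), 1 / (((j : ℝ)) + 1) +
            1 / (((h0 + i : ℕ) : ℝ) + 1) - ∑ j ∈ Finset.range h0, 1 / (((j : ℝ)) + 1))
            = (2 / (st m h0).1) * (∑ j ∈ Finset.range (h0 + i), 1 / (((j : ℝ)) + 1) -
            ∑ j ∈ Finset.range h0, 1 / (((j : ℝ)) + 1)) +
            (2 / (st m h0).1) * (1 / (((h0 + i : ℕ) : ℝ) + 1)) := by ring
        rw [e3]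
        linarith
    have hn : ∑ i ∈ Finset.range n, 1 / (((i : ℝ)) + 1)
        ≤ ∑ i ∈ Finset.range (h0 + n), 1 / (((i : ℝ)) + 1) := by
      apply Finset.sum_le_sum_of_subset_of_nonneg
      · intro i hi
        rw [Finset.mem_range] at hi ⊢
        omega
      · intro i _ _
        positivity
    calc _ ≤ (2 / (st m h0).1) * (∑ i ∈ Finset.range (h0 + n), 1 / (((i : ℝ)) + 1) -
      ∑ i ∈ Finset.range h0, 1 / (((i : ℝ)) + 1)) :=
          mul_le_mul_of_nonneg_left (by linarith) hpos.le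
      _ ≤ (st m (h0 + n)).2 := key n
      _ ≤ l := hle _
  have hdiv := Real.tendsto_sum_range_one_div_nat_succ_atTop
  have hpos : 0 < 2 / (st m h0).1 := by have := st1_ge m h0; positivity
  obtain ⟨n, hn⟩ := (hdiv.eventually_gt_atTop
    (l / (2 / (st m h0).1) + ∑ i ∈ Finset.range h0, 1 / (((i : ℝ)) + 1))).exists
  have h11 := h6 n
  have h12 : l / (2 / (st m h0).1) < ∑ i ∈ Finset.range n, 1 / (((i : ℝ)) + 1) -
      ∑ i ∈ Finset.range h0, 1 / (((i : ℝ)) + 1) := by linarith
  rw [div_lt_iff₀ hpos] at h12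
  linarith

end Pool.Agent.Y982.PW.Seq
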