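import Pool.Agent.H424R3.PowGen

set_option autoImplicit false

open MeasureTheory Filter
open scoped ENNReal Topology

namespace Pool.Agent.Y982.PW

open Pool.Agent.H424R3.Pow

/-- States of a node of level `h`: one state at level `0`, and every state splits into `r h + 1`
states from level `h` to level `h + 1`. -/
def S (r : ℕ → ℕ) : ℕ → Type
  | 0 => Unit
  | h + 1 => S r h × Fin (r h + 1)

instance instS (r : ℕ → ℕ) : ∀ h, Fintype (S r h)
  | 0 => inferInstanceAs (Fintype Unit)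
  | h + 1 => @instFintypeProd (S r h) (Fin (r h + 1)) (instS r h) _

/-- Number of states of a node of level `h`. -/
def N (r : ℕ → ℕ) : ℕ → ℕ
  | 0 => 1
  | h + 1 => N r h * (r h + 1)

lemma card_S (r : ℕ → ℕ) : ∀ h, Fintype.card (S r h) = N r h
  | 0 => rfl
  | h + 1 => by
    have h1 : Fintype.card (S r (h + 1)) = Fintype.card (S r h × Fin (r h + 1)) := rfl
    rw [h1, Fintype.card_prod, card_S r h, Fintype.card_fin]
    rfl

lemma N_pos (r : ℕ → ℕ) : ∀ h, 0 < N r h
  | 0 => Nat.one_pos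
  | h + 1 => Nat.mul_pos (N_pos r h) (Nat.succ_pos _)

/-- A distinguished state. -/
def z (r : ℕ → ℕ) : ∀ h, S r h
  | 0 => ()
  | h + 1 => (z r h, 0)

/-- Types of middle vertices of level `h`. -/
abbrev Mid (r m : ℕ → ℕ) (h : ℕ) : Type := S r h × Fin (r h + 1) × Fin (m h + 1)

/-- Types of vertices of level `h`. -/
abbrev F (r m : ℕ → ℕ) (h : ℕ) : Type := S r h ⊕ Mid r m h

/-- Vertices: `(h, k, inl s)` is the hub of level `h`, index `k` and state `s`;
`(h, k, inr (s, c, i))` are the middle vertices between this hub and the hub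
`(h + 1, k / 4, (s, c))`. -/
abbrev W (r m : ℕ → ℕ) : Type := Σ h : ℕ, ℕ × F r m h

instance (r m : ℕ → ℕ) : Countable (W r m) := inferInstance

variable {r m : ℕ → ℕ}

def hub (h k : ℕ) (s : S r h) : W r m := ⟨h, (k, Sum.inl s)⟩
def mid (h k : ℕ) (x : Mid r m h) : W r m := ⟨h, (k, Sum.inr x)⟩

/-- The state of the upper end of a middle vertex. -/
def up (h : ℕ) (x : Mid r m h) : S r (h + 1) := (x.1, x.2.1)

/-- Upward edges. -/
inductive Up : W r m → W r m → Prop
  | a (h k : ℕ) (x : Mid r m h) : Up (hub h k x.1) (mid h k x)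
  | b (h k : ℕ) (x : Mid r m h) : Up (mid h k x) (hub (h + 1) (k / 4) (up h x))

lemma hub_ne_mid (h k h' k' : ℕ) (s : S r h) (x : Mid r m h') : hub h k s ≠ mid h' k' x := by
  intro e
  unfold hub mid at e
  obtain ⟨rfl, e2⟩ := Sigma.mk.inj_iff.1 e
  have e3 := eq_of_heq e2
  rw [Prod.mk.injEq] at e3
  exact absurd e3.2 (by simp)

lemma hub_inj {h k h' k' : ℕ} {s : S r h} {s' : S r h'}
    (e : (hub h k s : W r m) = hub h' k' s') : h = h' ∧ k = k' ∧ HEq s s' := by
  unfold hub at e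
  obtain ⟨rfl, e2⟩ := Sigma.mk.inj_iff.1 e
  have e3 := eq_of_heq e2
  rw [Prod.mk.injEq] at e3
  exact ⟨rfl, e3.1, heq_of_eq (Sum.inl_injective e3.2)⟩

lemma mid_inj {h k h' k' : ℕ} {x : Mid r m h} {x' : Mid r m h'}
    (e : (mid h k x : W r m) = mid h' k' x') : h = h' ∧ k = k' ∧ HEq x x' := by
  unfold mid at e
  obtain ⟨rfl, e2⟩ := Sigma.mk.inj_iff.1 e
  have e3 := eq_of_heq e2
  rw [Prod.mk.injEq] at e3
  exact ⟨rfl, e3.1, heq_of_eq (Sum.inr_injective e3.2)⟩

lemma up_inv {u v : W r m} (h : Up u v) : (∃ h k x, u = hub h k x.1 ∧ v = mid h k x) ∨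
    (∃ h k x, u = mid h k x ∧ v = hub (h + 1) (k / 4) (up h x)) := by
  cases h with
  | a h k x => left; exact ⟨h, k, x, rfl, rfl⟩
  | b h k x => right; exact ⟨h, k, x, rfl, rfl⟩

/-- The graph. -/
def can (r m : ℕ → ℕ) : SimpleGraph (W r m) where
  Adj u v := Up u v ∨ Up v u
  symm := ⟨fun _ _ h => h.symm⟩
  loopless := ⟨fun u h => by
    have : ∀ v w : W r m, Up v w → v ≠ w := by
      intro v w h
      cases h with
      | a h k x => exact hub_ne_mid _ _ _ _ _ _
      | b h k x => exact (hub_ne_mid _ _ _ _ _ _).symm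
    rcases h with h | h <;> exact this _ _ h rfl⟩

lemma adj_hub_mid (h k : ℕ) (x : Mid r m h) : (can r m).Adj (hub h k x.1) (mid h k x) :=
  Or.inl (Up.a h k x)
lemma adj_mid_hub (h k : ℕ) (x : Mid r m h) :
    (can r m).Adj (mid h k x) (hub (h + 1) (k / 4) (up h x)) := Or.inl (Up.b h k x)

lemma cases_W (x : W r m) : (∃ h k s, x = hub h k s) ∨ (∃ h k y, x = mid h k y) := by
  obtain ⟨h, k, s | y⟩ := x
  · left; exact ⟨h, k, s, rfl⟩
  · right; exact ⟨h, k, y, rfl⟩

lemma reach_mid (h k : ℕ) (x : Mid r m h) :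
    (can r m).Reachable (hub h k x.1) (hub (h + 1) (k / 4) (up h x)) :=
  (adj_hub_mid h k x).reachable.trans (adj_mid_hub h k x).reachable

lemma reach_up (h k : ℕ) : (can r m).Reachable (hub h k (z r h)) (hub (h + 1) (k / 4) (z r (h + 1))) :=
  reach_mid h k (z r h, 0, 0)

lemma reach_spine (n : ℕ) : (can r m).Reachable (hub 0 0 (z r 0)) (hub n 0 (z r n)) := by
  induction n with
  | zero => exact SimpleGraph.Reachable.refl _
  | succ n ih => exact ih.trans (by simpa using reach_up n 0)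

lemma reach_hub0 (k : ℕ) : ∀ h, (can r m).Reachable (hub 0 0 (z r 0)) (hub h k (z r h)) := by
  induction k using Nat.strong_induction_on with
  | _ k ih =>
    intro h
    rcases Nat.eq_zero_or_pos k with rfl | hk
    · exact reach_spine h
    · exact (ih (k / 4) (Nat.div_lt_self hk (by norm_num)) (h + 1)).trans (reach_up h k).symm

lemma reach_hub (h : ℕ) : ∀ (k : ℕ) (s : S r h),
    (can r m).Reachable (hub 0 0 (z r 0)) (hub h k s) := by
  induction h with
  | zero => intro k s; exact reach_hub0 k 0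
  | succ h ih =>
    intro k s
    have h1 := reach_mid (m := m) h (4 * k) (s.1, s.2, 0)
    have h2 : 4 * k / 4 = k := by omega
    rw [h2] at h1
    exact (ih (4 * k) s.1).trans h1

lemma reach_all (x : W r m) : (can r m).Reachable (hub 0 0 (z r 0)) x := by
  rcases cases_W x with ⟨h, k, s, rfl⟩ | ⟨h, k, y, rfl⟩
  · exact reach_hub h k s
  · exact (reach_hub h k y.1).trans (adj_hub_mid h k y).reachable

lemma can_connected : (can r m).Connected where
  preconnected := fun x y => (reach_all x).symm.trans (reach_all y)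
  nonempty := ⟨hub 0 0 (z r 0)⟩

/-- A box of vertices. -/
lemma box_finite (H K : ℕ) : {x : W r m | x.1 ≤ H ∧ x.2.1 ≤ K}.Finite := by
  have : {x : W r m | x.1 ≤ H ∧ x.2.1 ≤ K}
      ⊆ ((Finset.range (H + 1)).sigma (fun h => (Finset.range (K + 1)) ×ˢ
        (Finset.univ : Finset (F r m h)))) := by
    intro x hx
    simp only [Finset.coe_sigma, Set.mem_sigma_iff, Finset.coe_range, Set.mem_Iio,
      Finset.mem_coe, Finset.mem_product, Finset.mem_range, Finset.mem_univ, and_true]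
    exact ⟨by have := hx.1; omega, by have := hx.2; omega⟩
  exact (Finset.finite_toSet _).subset this

lemma nbr_box {x y : W r m} (h : (can r m).Adj x y) :
    y.1 ≤ x.1 + 1 ∧ x.1 ≤ y.1 + 1 ∧ y.2.1 ≤ 4 * x.2.1 + 3 := by
  have key : ∀ u v : W r m, Up u v →
      u.1 ≤ v.1 ∧ v.1 ≤ u.1 + 1 ∧ v.2.1 ≤ u.2.1 ∧ u.2.1 ≤ 4 * v.2.1 + 3 := by
    intro u v h
    cases h with
    | a h k x => simp only [hub, mid]; omega
    | b h k x => simp only [hub, mid]; omega
  rcases h with h | h
  · have := key _ _ h; omega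
  · have := key _ _ h; omega

lemma can_finite (x : W r m) : ((can r m).neighborSet x).Finite := by
  apply (box_finite (x.1 + 1) (4 * x.2.1 + 3)).subset
  intro y hy
  have := nbr_box hy
  exact ⟨this.1, this.2.2⟩

lemma can_nonempty (x : W r m) : ((can r m).neighborSet x).Nonempty := by
  rcases cases_W x with ⟨h, k, s, rfl⟩ | ⟨h, k, y, rfl⟩
  · exact ⟨_, adj_hub_mid h k (s, 0, 0)⟩
  · exact ⟨_, adj_mid_hub h k y⟩

lemma can_nice : Nice (can r m) := ⟨can_connected, can_finite, can_nonempty⟩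

lemma adj_mid {h k : ℕ} {x : Mid r m h} {y : W r m} :
    (can r m).Adj (mid h k x) y ↔ y = hub h k x.1 ∨ y = hub (h + 1) (k / 4) (up h x) := by
  constructor
  · rintro (h1 | h1)
    · rcases up_inv h1 with ⟨a, b, c, e1, e2⟩ | ⟨a, b, c, e1, e2⟩
      · exact absurd e1.symm (hub_ne_mid _ _ _ _ _ _)
      · obtain ⟨rfl, rfl, e3⟩ := mid_inj e1
        obtain rfl := eq_of_heq e3
        right; exact e2
    · rcases up_inv h1 with ⟨a, b, c, e1, e2⟩ | ⟨a, b, c, e1, e2⟩
      · obtain ⟨rfl, rfl, e3⟩ := mid_inj e2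
        obtain rfl := eq_of_heq e3
        left; exact e1
      · exact absurd e2.symm (hub_ne_mid _ _ _ _ _ _)
  · rintro (rfl | rfl)
    · exact (adj_hub_mid h k x).symm
    · exact adj_mid_hub h k x

lemma adj_hub_zero {k : ℕ} {s : S r 0} {y : W r m} : (can r m).Adj (hub 0 k s) y ↔
    ∃ q : Fin (r 0 + 1) × Fin (m 0 + 1), y = mid 0 k (s, q) := by
  constructor
  · rintro (h1 | h1)
    · rcases up_inv h1 with ⟨a, b, c, e1, e2⟩ | ⟨a, b, c, e1, e2⟩
      · obtain ⟨rfl, rfl, e3⟩ := hub_inj e1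
        obtain rfl := eq_of_heq e3
        exact ⟨c.2, e2⟩
      · exact absurd e1 (hub_ne_mid _ _ _ _ _ _)
    · rcases up_inv h1 with ⟨a, b, c, e1, e2⟩ | ⟨a, b, c, e1, e2⟩
      · exact absurd e2 (hub_ne_mid _ _ _ _ _ _)
      · obtain ⟨e3, e4⟩ := hub_inj e2
        omega
  · rintro ⟨q, rfl⟩
    exact adj_hub_mid 0 k (s, q)

lemma adj_hub_succ {h k : ℕ} {s : S r h} {c : Fin (r h + 1)} {y : W r m} :
    (can r m).Adj (hub (h + 1) k (s, c)) y ↔
    (∃ q : Fin (r (h + 1) + 1) × Fin (m (h + 1) + 1), y = mid (h + 1) k ((s, c), q)) ∨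
      (∃ (k' : ℕ) (i : Fin (m h + 1)), k' / 4 = k ∧ y = mid h k' (s, c, i)) := by
  constructor
  · rintro (h1 | h1)
    · rcases up_inv h1 with ⟨a, b, x, e1, e2⟩ | ⟨a, b, x, e1, e2⟩
      · obtain ⟨rfl, rfl, e3⟩ := hub_inj e1
        left
        refine ⟨x.2, ?_⟩
        rw [e2]
        congr 1
        exact Prod.ext (eq_of_heq e3).symm rfl
      · exact absurd e1 (hub_ne_mid _ _ _ _ _ _)
    · rcases up_inv h1 with ⟨a, b, x, e1, e2⟩ | ⟨a, b, x, e1, e2⟩
      · exact absurd e2 (hub_ne_mid _ _ _ _ _ _)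
      · obtain ⟨e3, e4, e5⟩ := hub_inj e2
        obtain rfl : h = a := by omega
        right
        refine ⟨b, x.2.2, e4.symm, ?_⟩
        rw [e1]
        congr 1
        have e6 : ((s, c) : S r (h + 1)) = up h x := eq_of_heq e5
        have e7 : ((s, c) : S r h × Fin (r h + 1)) = (x.1, x.2.1) := e6
        rw [Prod.mk.injEq] at e7
        obtain ⟨rfl, rfl⟩ := e7
        rfl
  · rintro (⟨q, rfl⟩ | ⟨k', i, rfl, rfl⟩)
    · exact adj_hub_mid (h + 1) k ((s, c), q)
    · exact (adj_mid_hub h k' (s, c, i)).symm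

lemma ncard_le_of_range {V α : Type} [Fintype α] {A : Set V} (f : α → V)
    (hA : A ⊆ Set.range f) : A.ncard ≤ Fintype.card α := by
  have h1 : A.ncard ≤ (Set.range f).ncard := Set.ncard_le_ncard hA (Set.finite_range f)
  have h2 : (Set.range f).ncard ≤ (Set.univ : Set α).ncard := by
    rw [← Set.image_univ]
    exact Set.ncard_image_le Set.finite_univ
  rw [Set.ncard_univ, Nat.card_eq_fintype_card] at h2
  exact h1.trans h2

/-- Degrees. -/
lemma deg_le (hr : ∀ h, r h ≤ 1) (hm : Monotone m) (h : ℕ) (t : F r m h) :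
    ((can r m).neighborSet (⟨h, (0, t)⟩ : W r m)).ncard ≤ 6 * (m h + 1) := by
  rcases t with s | x
  · rcases Nat.eq_zero_or_pos h with rfl | h0
    · have h1 : ((can r m).neighborSet (⟨0, (0, Sum.inl s)⟩ : W r m)) ⊆
          Set.range (fun q : Fin (r 0 + 1) × Fin (m 0 + 1) => (mid 0 0 (s, q) : W r m)) := by
        intro y hy
        obtain ⟨q, rfl⟩ := adj_hub_zero.1 hy
        exact ⟨q, rfl⟩
      refine (ncard_le_of_range _ h1).trans ?_
      rw [Fintype.card_prod, Fintype.card_fin, Fintype.card_fin]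
      have := hr 0
      calc (r 0 + 1) * (m 0 + 1) ≤ 6 * (m 0 + 1) := Nat.mul_le_mul_right _ (by omega)
        _ = _ := rfl
    · obtain ⟨g, rfl⟩ : ∃ g, h = g + 1 := ⟨h - 1, by omega⟩
      obtain ⟨s, c⟩ := s
      have h1 : ((can r m).neighborSet (⟨g + 1, (0, Sum.inl (s, c))⟩ : W r m)) ⊆
          Set.range (Sum.elim
            (fun q : Fin (r (g + 1) + 1) × Fin (m (g + 1) + 1) =>
              (mid (g + 1) 0 ((s, c), q) : W r m))
            (fun q : Fin 4 × Fin (m g + 1) => (mid g q.1 (s, c, q.2) : W r m))) := by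
        intro y hy
        rcases adj_hub_succ.1 hy with ⟨q, rfl⟩ | ⟨k', i, e, rfl⟩
        · exact ⟨Sum.inl q, rfl⟩
        · exact ⟨Sum.inr (⟨k', by omega⟩, i), rfl⟩
      refine (ncard_le_of_range _ h1).trans ?_
      rw [Fintype.card_sum, Fintype.card_prod, Fintype.card_prod, Fintype.card_fin,
        Fintype.card_fin, Fintype.card_fin, Fintype.card_fin]
      have h2 := hr (g + 1)
      have h3 : m g ≤ m (g + 1) := hm (Nat.le_succ g)
      calc (r (g + 1) + 1) * (m (g + 1) + 1) + 4 * (m g + 1)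
          ≤ 2 * (m (g + 1) + 1) + 4 * (m (g + 1) + 1) :=
            Nat.add_le_add (Nat.mul_le_mul_right _ (by omega)) (Nat.mul_le_mul_left _ (by omega))
        _ = 6 * (m (g + 1) + 1) := by ring
  · have h1 : ((can r m).neighborSet (⟨h, (0, Sum.inr x)⟩ : W r m)) ⊆
        Set.range (fun b : Bool => if b then (hub h 0 x.1 : W r m)
          else hub (h + 1) (0 / 4) (up h x)) := by
      intro y hy
      rcases adj_mid.1 hy with rfl | rfl
      · exact ⟨true, by simp⟩
      · exact ⟨false, by simp⟩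
    refine (ncard_le_of_range _ h1).trans ?_
    rw [Fintype.card_bool]
    omega

/-- Resistance scale. -/
noncomputable def R (r m : ℕ → ℕ) (n : ℕ) : ℝ :=
  ∑ i ∈ Finset.range n, 2 / ((N r (i + 1) : ℝ) * ((m i : ℝ) + 1))

lemma N_pos' (h : ℕ) : (0 : ℝ) < N r h := by exact_mod_cast N_pos r h

lemma R_succ (n : ℕ) : R r m (n + 1) = R r m n + 2 / ((N r (n + 1) : ℝ) * ((m n : ℝ) + 1)) := by
  unfold R; rw [Finset.sum_range_succ]

lemma R_mono : Monotone (R r m) := monotone_nat_of_le_succ (fun n => by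
  rw [R_succ]
  have := N_pos' (r := r) (n + 1)
  have : (0 : ℝ) ≤ 2 / ((N r (n + 1) : ℝ) * ((m n : ℝ) + 1)) := by positivity
  linarith)

lemma R_nonneg (n : ℕ) : 0 ≤ R r m n := by
  unfold R; apply Finset.sum_nonneg; intro i _; positivity

/-- Potential of the walk. -/
noncomputable def ψ (x : W r m) : ℝ :=
  if x.2.1 = 0 then R r m x.1 + Sum.elim (fun _ => (0 : ℝ))
    (fun _ => 1 / ((N r (x.1 + 1) : ℝ) * ((m x.1 : ℝ) + 1))) x.2.2
  else R r m (x.1 + Nat.log 4 x.2.1 + 1)

lemma ψ_hub0 (h : ℕ) (s : S r h) : ψ (hub h 0 s : W r m) = R r m h := by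
  unfold ψ hub
  rw [if_pos rfl]
  simp
lemma ψ_mid0 (h : ℕ) (x : Mid r m h) : ψ (mid h 0 x : W r m)
    = R r m h + 1 / ((N r (h + 1) : ℝ) * ((m h : ℝ) + 1)) := by
  unfold ψ mid
  rw [if_pos rfl]
  simp
lemma ψ_hub (h : ℕ) {k : ℕ} (hk : k ≠ 0) (s : S r h) :
    ψ (hub h k s : W r m) = R r m (h + Nat.log 4 k + 1) := by
  simp [ψ, hub, hk]
lemma ψ_mid (h : ℕ) {k : ℕ} (hk : k ≠ 0) (x : Mid r m h) :
    ψ (mid h k x : W r m) = R r m (h + Nat.log 4 k + 1) := by
  simp [ψ, mid, hk]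

lemma log_quarter {k : ℕ} (hk : k / 4 ≠ 0) : Nat.log 4 k = Nat.log 4 (k / 4) + 1 :=
  Nat.log_of_one_lt_of_le (by norm_num) (by omega)

lemma log_small {k : ℕ} (hk : k < 4) : Nat.log 4 k = 0 :=
  Nat.log_of_lt hk

lemma ψ_nonneg (x : W r m) : 0 ≤ ψ x := by
  rcases cases_W x with ⟨h, k, s, rfl⟩ | ⟨h, k, y, rfl⟩
  · by_cases hk : k = 0
    · subst hk; rw [ψ_hub0]; exact R_nonneg _
    · rw [ψ_hub h hk]; exact R_nonneg _
  · by_cases hk : k = 0
    · subst hk; rw [ψ_mid0]
      have := R_nonneg (r := r) (m := m) h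
      positivity
    · rw [ψ_mid h hk]; exact R_nonneg _

lemma ψ_ge (x : W r m) : R r m (if x.2.1 = 0 then x.1 else x.1 + Nat.log 4 x.2.1 + 1) ≤ ψ x := by
  rcases cases_W x with ⟨h, k, s, rfl⟩ | ⟨h, k, y, rfl⟩
  · by_cases hk : k = 0
    · subst hk; rw [ψ_hub0]; simp [hub]
    · rw [ψ_hub h hk]; simp [hub, hk]
  · by_cases hk : k = 0
    · subst hk; rw [ψ_mid0]
      have : (0 : ℝ) ≤ 1 / ((N r (h + 1) : ℝ) * ((m h : ℝ) + 1)) := by positivity
      simp only [mid, if_true]
      linarith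
    · rw [ψ_mid h hk]; simp [mid, hk]

lemma ψ_finite (hR : Tendsto (R r m) atTop atTop) (M : ℝ) : {x : W r m | ψ x ≤ M}.Finite := by
  obtain ⟨n0, hN⟩ := (hR.eventually_gt_atTop M).exists
  apply (box_finite n0 (4 ^ n0)).subset
  intro x hx
  have hx' : ψ x ≤ M := hx
  have key : ∀ n, R r m n ≤ M → n < n0 := by
    intro n hn
    by_contra hc
    push Not at hc
    have := R_mono (r := r) (m := m) hc
    linarith
  have h1 := key _ ((ψ_ge x).trans hx')
  split_ifs at h1 with h2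
  · exact ⟨h1.le, by rw [h2]; positivity⟩
  · refine ⟨by omega, ?_⟩
    have h3 := Nat.lt_pow_succ_log_self (b := 4) (by norm_num) x.2.1
    exact h3.le.trans (Nat.pow_le_pow_right (by norm_num) (by omega))

lemma sup_of_le {x : W r m} (h : ∀ y, (can r m).Adj x y → ψ y ≤ ψ x) :
    nbrAvg (can r m) ψ x ≤ ψ x := by
  rw [← nbrAvg_const can_nice (ψ x) x]
  exact nbrAvg_mono can_nice h

lemma nbrs_hub0_sum (h : ℕ) (s : S r h) (c : Fin (r h + 1)) (f : W r m → ℝ) :
    ∑ y ∈ (can_nice.fin (hub (h + 1) 0 (s, c) : W r m)).toFinset, f y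
    = ∑ q : Fin (r (h + 1) + 1) × Fin (m (h + 1) + 1), f (mid (h + 1) 0 ((s, c), q)) +
      ∑ q : Fin 4 × Fin (m h + 1), f (mid h q.1 (s, c, q.2)) := by
  classical
  have hset : (can_nice.fin (hub (h + 1) 0 (s, c) : W r m)).toFinset
      = (Finset.univ.image (fun q : Fin (r (h + 1) + 1) × Fin (m (h + 1) + 1) =>
          (mid (h + 1) 0 ((s, c), q) : W r m))) ∪
        (Finset.univ.image (fun q : Fin 4 × Fin (m h + 1) => (mid h q.1 (s, c, q.2) : W r m))) := by
    ext y
    simp only [Set.Finite.mem_toFinset, SimpleGraph.mem_neighborSet, adj_hub_succ,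
      Finset.mem_union, Finset.mem_image, Finset.mem_univ, true_and]
    constructor
    · rintro (⟨q, rfl⟩ | ⟨k', i, e, rfl⟩)
      · left; exact ⟨q, rfl⟩
      · right; exact ⟨(⟨k', by omega⟩, i), rfl⟩
    · rintro (⟨q, rfl⟩ | ⟨q, rfl⟩)
      · left; exact ⟨q, rfl⟩
      · right; exact ⟨q.1, q.2, by have := q.1.2; omega, rfl⟩
  rw [hset, Finset.sum_union, Finset.sum_image, Finset.sum_image]
  · intro a _ b _ e
    obtain ⟨_, e1, e2⟩ := mid_inj e
    have e3 := eq_of_heq e2
    rw [Prod.mk.injEq, Prod.mk.injEq] at e3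
    exact Prod.ext (Fin.ext e1) e3.2.2
  · intro a _ b _ e
    obtain ⟨_, _, e2⟩ := mid_inj e
    have e3 := eq_of_heq e2
    rw [Prod.mk.injEq] at e3
    exact e3.2
  · rw [Finset.disjoint_left]
    intro y h1 h2
    simp only [Finset.mem_image, Finset.mem_univ, true_and] at h1 h2
    obtain ⟨a, rfl⟩ := h1
    obtain ⟨b, e⟩ := h2
    have := (mid_inj e).1
    omega

lemma ψ_super (x : W r m) (hx : x ≠ hub 0 0 (z r 0)) : nbrAvg (can r m) ψ x ≤ ψ x := by
  rcases cases_W x with ⟨h, k, s, rfl⟩ | ⟨h, k, x, rfl⟩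
  · rcases Nat.eq_zero_or_pos h with rfl | h0
    · have hk : k ≠ 0 := by
        rintro rfl
        exact hx rfl
      apply sup_of_le
      intro y hy
      obtain ⟨q, rfl⟩ := adj_hub_zero.1 hy
      rw [ψ_hub 0 hk, ψ_mid 0 hk]
    · obtain ⟨g, rfl⟩ : ∃ g, h = g + 1 := ⟨h - 1, by omega⟩
      obtain ⟨s, c⟩ := s
      by_cases hk : k = 0
      · subst hk
        rw [nbrAvg_eq _ (can_nice.fin _), div_le_iff₀ (can_nice.card_pos _)]
        have hcard : ((can_nice.fin (hub (g + 1) 0 (s, c) : W r m)).toFinset.card : ℝ)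
            = ((r (g + 1) : ℝ) + 1) * ((m (g + 1) : ℝ) + 1) + 4 * ((m g : ℝ) + 1) := by
          have := nbrs_hub0_sum g s c (fun _ : W r m => (1 : ℝ))
          rw [Finset.sum_const, nsmul_eq_mul, mul_one] at this
          rw [this]
          simp
        rw [hcard, nbrs_hub0_sum, Fintype.sum_prod_type (γ := ℝ) (fun q : Fin 4 × Fin (m g + 1) =>
          ψ (mid g q.1 (s, c, q.2) : W r m)), Fin.sum_univ_four]
        simp only [Fin.val_zero, Fin.val_one, Fin.val_two]
        have e3 : (((3 : Fin 4) : ℕ)) = 3 := rfl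
        simp only [e3, ψ_hub0, ψ_mid0, ψ_mid g (one_ne_zero), ψ_mid g (two_ne_zero),
          ψ_mid g (three_ne_zero), log_small (show 1 < 4 by norm_num),
          log_small (show 2 < 4 by norm_num), log_small (show 3 < 4 by norm_num),
          Nat.add_zero, Finset.sum_const, Finset.card_univ, Fintype.card_fin, Fintype.card_prod,
          nsmul_eq_mul, R_succ]
        push_cast
        have eN : (N r (g + 1 + 1) : ℝ) = N r (g + 1) * ((r (g + 1) : ℝ) + 1) := by
          show ((N r (g + 1) * (r (g + 1) + 1) : ℕ) : ℝ) = _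
          push_cast; ring
        rw [eN]
        apply le_of_eq
        have h1 : (N r (g + 1) : ℝ) ≠ 0 := (N_pos' (g + 1)).ne'
        have h2 : (r (g + 1) : ℝ) + 1 ≠ 0 := by positivity
        have h3 : (m (g + 1) : ℝ) + 1 ≠ 0 := by positivity
        have h4 : (m g : ℝ) + 1 ≠ 0 := by positivity
        field_simp
        ring
      · apply sup_of_le
        intro y hy
        rcases adj_hub_succ.1 hy with ⟨q, rfl⟩ | ⟨k', i, e, rfl⟩
        · rw [ψ_hub (g + 1) hk, ψ_mid (g + 1) hk]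
        · have hk' : k' ≠ 0 := by omega
          rw [ψ_hub (g + 1) hk, ψ_mid g hk', log_quarter (k := k') (by omega), e]
          apply le_of_eq; congr 1; omega
  · by_cases hk : k = 0
    · subst hk
      classical
      have hset : (can_nice.fin (mid h 0 x : W r m)).toFinset
          = {hub h 0 x.1, hub (h + 1) 0 (up h x)} := by
        ext y
        simp only [Set.Finite.mem_toFinset, SimpleGraph.mem_neighborSet, adj_mid]
        simp
      rw [nbrAvg_eq _ (can_nice.fin _), hset, Finset.sum_pair, Finset.card_pair]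
      · rw [ψ_hub0, ψ_hub0, ψ_mid0, R_succ]
        apply le_of_eq
        have h1 : (N r (h + 1) : ℝ) ≠ 0 := (N_pos' (h + 1)).ne'
        have h4 : (m h : ℝ) + 1 ≠ 0 := by positivity
        push_cast
        field_simp
        ring
      · intro e; have := (hub_inj e).1; omega
      · intro e; have := (hub_inj e).1; omega
    · apply sup_of_le
      intro y hy
      rcases adj_mid.1 hy with rfl | rfl
      · rw [ψ_hub h hk, ψ_mid h hk]
      · by_cases hk2 : k / 4 = 0
        · have hk3 : k < 4 := by omega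
          rw [ψ_mid h hk, log_small hk3, hk2, ψ_hub0]
        · rw [ψ_hub (h + 1) hk2, ψ_mid h hk, log_quarter hk2]
          apply le_of_eq; congr 1; omega

/-- Simple random walk on the graph is recurrent from every vertex. -/
theorem can_recurrent (hR : Tendsto (R r m) atTop atTop) (ρ : W r m) : Recurrent (can r m) ρ :=
  recurrent_of_proper can_nice (hub 0 0 (z r 0)) ρ ψ ψ_nonneg ψ_super (ψ_finite hR)

end Pool.Agent.Y982.PW
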