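import Pool.Agent.Y982.PW.Trans
import Pool.Agent.H424R3.PowMTP

set_option autoImplicit false

open MeasureTheory Filter
open scoped ENNReal Topology

namespace Pool.Agent.Y982.PW

open Pool.Agent.H424R3.Pow (transport Nice nbrAvg Recurrent power)

variable {r m : ℕ → ℕ}

/-- Automorphisms of the graph. -/
def flip (K : ℕ) (x : W r m) : W r m := ⟨x.1, (x.2.1 ^^^ (K >>> (2 * x.1)), x.2.2)⟩

lemma flip_flip (K : ℕ) (x : W r m) : flip K (flip K x) = x := by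
  obtain ⟨h, k, i⟩ := x
  simp only [flip]
  rw [Nat.xor_assoc, Nat.xor_self, Nat.xor_zero]

lemma flip_hub (K h k : ℕ) (s : S r h) :
    flip K (hub h k s : W r m) = hub h (k ^^^ (K >>> (2 * h))) s := rfl
lemma flip_mid (K h k : ℕ) (x : Mid r m h) :
    flip K (mid h k x : W r m) = mid h (k ^^^ (K >>> (2 * h))) x := rfl

lemma xor_quarter (K h k : ℕ) :
    (k ^^^ (K >>> (2 * h))) / 4 = (k / 4) ^^^ (K >>> (2 * (h + 1))) := by
  have h1 : ∀ a : ℕ, a / 4 = a >>> 2 := fun a => by rw [Nat.shiftRight_eq_div_pow]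
  rw [h1, h1, Nat.shiftRight_xor_distrib, ← Nat.shiftRight_add]
  rfl

lemma flip_up (K : ℕ) {u v : W r m} (h : Up u v) : Up (flip K u) (flip K v) := by
  cases h with
  | a h k x => rw [flip_hub, flip_mid]; exact Up.a _ _ _
  | b h k x => rw [flip_hub, flip_mid, ← xor_quarter]; exact Up.b _ _ _

lemma flip_adj (K : ℕ) {u v : W r m} (h : (can r m).Adj u v) :
    (can r m).Adj (flip K u) (flip K v) :=
  h.imp (flip_up K) (flip_up K)

def flipIso (K : ℕ) : can r m ≃g can r m where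
  toFun := flip K
  invFun := flip K
  left_inv := flip_flip K
  right_inv := flip_flip K
  map_rel_iff' := by
    intro a b
    constructor
    · intro h
      have := flip_adj K h
      simp only [Equiv.coe_fn_mk] at this
      rwa [flip_flip, flip_flip] at this
    · exact fun h => flip_adj K h

/-- Types of vertices. -/
abbrev Om (r m : ℕ → ℕ) : Type := Σ h : ℕ, F r m h

def vtx (w : Om r m) (k : ℕ) : W r m := ⟨w.1, (k, w.2)⟩

def eW : Om r m × ℕ ≃ W r m where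
  toFun p := vtx p.1 p.2
  invFun x := (⟨x.1, x.2.2⟩, x.2.1)
  left_inv := fun _ => rfl
  right_inv := fun _ => rfl

lemma tsum_W (g : W r m → ℝ≥0∞) : ∑' x, g x = ∑' w : Om r m, ∑' k : ℕ, g (vtx w k) := by
  rw [← eW.tsum_eq g, ENNReal.tsum_prod']
  rfl

/-- Unnormalised mass transport. -/
lemma mtp (F : W r m → W r m → ℝ≥0∞) (hF : ∀ K x y, F (flip K x) (flip K y) = F x y) :
    ∑' w : Om r m, ((2 : ℝ≥0∞)⁻¹) ^ (2 * w.1) * ∑' x, F (vtx w 0) x
      = ∑' w : Om r m, ((2 : ℝ≥0∞)⁻¹) ^ (2 * w.1) * ∑' x, F x (vtx w 0) := by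
  have h1 : ∀ w w' : Om r m, ((2 : ℝ≥0∞)⁻¹) ^ (2 * w.1) * ∑' k, F (vtx w 0) (vtx w' k)
      = ((2 : ℝ≥0∞)⁻¹) ^ (2 * w'.1) * ∑' k, F (vtx w k) (vtx w' 0) := by
    intro w w'
    exact transport (fun k k' => F (vtx w k) (vtx w' k')) (2 * w.1) (2 * w'.1)
      (fun K k k' => hF K (vtx w k) (vtx w' k'))
  have hL : ∀ w : Om r m, ((2 : ℝ≥0∞)⁻¹) ^ (2 * w.1) * ∑' x, F (vtx w 0) x
      = ∑' w' : Om r m, ((2 : ℝ≥0∞)⁻¹) ^ (2 * w'.1) * ∑' k, F (vtx w k) (vtx w' 0) := by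
    intro w
    rw [tsum_W, ← ENNReal.tsum_mul_left]
    exact tsum_congr (fun w' => h1 w w')
  have hR : ∀ w : Om r m, ((2 : ℝ≥0∞)⁻¹) ^ (2 * w.1) * ∑' x, F x (vtx w 0)
      = ∑' w' : Om r m, ((2 : ℝ≥0∞)⁻¹) ^ (2 * w.1) * ∑' k, F (vtx w' k) (vtx w 0) := by
    intro w
    rw [tsum_W, ← ENNReal.tsum_mul_left]
  rw [tsum_congr hL, tsum_congr hR, ENNReal.tsum_comm]

/-- Weighted number of types of level `h`. -/
lemma level_sum (h : ℕ) (g : F r m h → ℝ≥0∞) (c : ℝ≥0∞) (hg : ∀ t, g t ≤ c) :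
    ∑' t : F r m h, g t ≤ ((N r h : ℝ≥0∞) + N r (h + 1) * ((m h : ℝ≥0∞) + 1)) * c := by
  rw [tsum_fintype]
  have h1 : ∑ t : F r m h, g t ≤ ∑ _t : F r m h, c := Finset.sum_le_sum (fun t _ => hg t)
  refine h1.trans (le_of_eq ?_)
  rw [Finset.sum_const, Finset.card_univ, nsmul_eq_mul, Fintype.card_sum, Fintype.card_prod,
    Fintype.card_prod, card_S, Fintype.card_fin, Fintype.card_fin]
  congr 1
  show _ = _ + ((N r h * (r h + 1) : ℕ) : ℝ≥0∞) * _
  push_cast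
  ring

end Pool.Agent.Y982.PW
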