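import Pool.Agent.Y982.PW.Graph

set_option autoImplicit false

open MeasureTheory Filter
open scoped ENNReal Topology

namespace Pool.Agent.Y982.PW

open Pool.Agent.H424R3.Pow

variable {r m : ℕ → ℕ}

lemma can_le_power {k : ℕ} (hk : 1 ≤ k) : can r m ≤ power (can r m) k := by
  intro x y h
  exact ⟨h.ne, h.toWalk, by simpa using hk⟩

lemma walk_box {x y : W r m} (p : (can r m).Walk x y) :
    y.1 ≤ x.1 + p.length ∧ y.2.1 + 1 ≤ 4 ^ p.length * (x.2.1 + 1) := by
  induction p with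
  | nil => simp
  | @cons u v w h p ih =>
    have h1 := nbr_box h
    rw [SimpleGraph.Walk.length_cons]
    refine ⟨by omega, ih.2.trans ?_⟩
    calc 4 ^ p.length * (v.2.1 + 1) ≤ 4 ^ p.length * (4 * (u.2.1 + 1)) :=
          Nat.mul_le_mul_left _ (by omega)
      _ = 4 ^ (p.length + 1) * (u.2.1 + 1) := by ring

lemma power_nice {k : ℕ} (hk : 1 ≤ k) : Nice (power (can r m) k) where
  conn := can_connected.mono (can_le_power hk)
  fin := by
    intro x
    apply (box_finite (x.1 + k) (4 ^ k * (x.2.1 + 1))).subset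
    rintro y ⟨_, p, hp⟩
    have h1 := walk_box p
    refine ⟨by have := h1.1; omega, ?_⟩
    have h2 : 4 ^ p.length * (x.2.1 + 1) ≤ 4 ^ k * (x.2.1 + 1) :=
      Nat.mul_le_mul_right _ (Nat.pow_le_pow_right (by norm_num) hp)
    have := h1.2
    omega
  pos := by
    intro x
    obtain ⟨y, hy⟩ := can_nonempty x
    exact ⟨y, can_le_power hk hy⟩

/-- Pairs of middle vertices of two consecutive levels with a common hub. -/
abbrev Pr (r m : ℕ → ℕ) (h : ℕ) : Type :=
  Mid r m h × (Fin (r (h + 1) + 1) × Fin (m (h + 1) + 1))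

/-- The upper vertex of a pair. -/
def hi (h : ℕ) (p : Pr r m h) : Mid r m (h + 1) := (up h p.1, p.2)

lemma power_adj {k : ℕ} (hk : 2 ≤ k) (h : ℕ) (p : Pr r m h) :
    (power (can r m) k).Adj (mid h 0 p.1) (mid (h + 1) 0 (hi h p)) := by
  refine ⟨fun e => ?_, ?_⟩
  · have := (mid_inj e).1; omega
  · have h1 : (can r m).Adj (mid h 0 p.1) (hub (h + 1) 0 (up h p.1)) := adj_mid_hub h 0 p.1
    have h2 : (can r m).Adj (hub (h + 1) 0 (up h p.1)) (mid (h + 1) 0 (hi h p)) :=
      adj_hub_mid (h + 1) 0 (hi h p)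
    exact ⟨.cons h1 (.cons h2 .nil), by simpa using hk⟩

/-- Number of middle vertices. -/
lemma card_Mid (h : ℕ) : (Fintype.card (Mid r m h) : ℝ) = N r (h + 1) * ((m h : ℝ) + 1) := by
  rw [Fintype.card_prod, Fintype.card_prod, card_S, Fintype.card_fin, Fintype.card_fin]
  show _ = ((N r h * (r h + 1) : ℕ) : ℝ) * _
  push_cast
  ring

lemma N_succ (h : ℕ) : (N r (h + 1) : ℝ) = N r h * ((r h : ℝ) + 1) := by
  show ((N r h * (r h + 1) : ℕ) : ℝ) = _
  push_cast
  ring

/-- Average of `f` over the middle vertices of level `h` on the spine. -/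
noncomputable def av (f : W r m → ℝ) (h : ℕ) : ℝ :=
  (∑ x : Mid r m h, f (mid h 0 x)) / ((N r (h + 1) : ℝ) * ((m h : ℝ) + 1))

/-- Number of pairs. -/
noncomputable def PN (r m : ℕ → ℕ) (h : ℕ) : ℝ :=
  (N r (h + 2) : ℝ) * ((m h : ℝ) + 1) * ((m (h + 1) : ℝ) + 1)

lemma PN_pos (h : ℕ) : 0 < PN r m h := by
  unfold PN
  have := N_pos' (r := r) (h + 2)
  positivity

lemma card_Pr (h : ℕ) : (Fintype.card (Pr r m h) : ℝ) = PN r m h := by
  rw [Fintype.card_prod, Nat.cast_mul, card_Mid, Fintype.card_prod, Fintype.card_fin,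
    Fintype.card_fin]
  unfold PN
  rw [N_succ (h + 1)]
  push_cast
  ring

lemma sum_low (h : ℕ) (g : Mid r m h → ℝ) : ∑ p : Pr r m h, g p.1
    = (((r (h + 1) : ℝ) + 1) * ((m (h + 1) : ℝ) + 1)) * ∑ x : Mid r m h, g x := by
  rw [Fintype.sum_prod_type]
  simp only [Finset.sum_const, Finset.card_univ, Fintype.card_fin, Fintype.card_prod,
    nsmul_eq_mul]
  rw [← Finset.mul_sum]
  push_cast
  ring

lemma sum_S_succ (h : ℕ) (g : S r (h + 1) → ℝ) :
    ∑ t : S r (h + 1), g t = ∑ s : S r h, ∑ c : Fin (r h + 1), g (s, c) := by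
  have h1 : ∑ t : S r (h + 1), g t
      = ∑ t : S r h × Fin (r h + 1), (fun t : S r h × Fin (r h + 1) => g t) t := rfl
  rw [h1, Fintype.sum_prod_type]

lemma sum_high (h : ℕ) (g : Mid r m (h + 1) → ℝ) : ∑ p : Pr r m h, g (hi h p)
    = ((m h : ℝ) + 1) * ∑ x : Mid r m (h + 1), g x := by
  rw [Fintype.sum_prod_type, Fintype.sum_prod_type]
  simp_rw [Fintype.sum_prod_type (f := fun y : Fin (r h + 1) × Fin (m h + 1) => _)]
  rw [Fintype.sum_prod_type (f := fun x : Mid r m (h + 1) => g x), sum_S_succ, Finset.mul_sum]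
  apply Finset.sum_congr rfl
  intro s _
  rw [Finset.mul_sum]
  apply Finset.sum_congr rfl
  intro c _
  have h1 : ∀ i : Fin (m h + 1), ∑ q : Fin (r (h + 1) + 1) × Fin (m (h + 1) + 1),
      g (hi h ((s, c, i), q)) = ∑ q : Fin (r (h + 1) + 1) × Fin (m (h + 1) + 1), g ((s, c), q) :=
    fun i => rfl
  simp_rw [h1]
  rw [Finset.sum_const, Finset.card_univ, Fintype.card_fin, nsmul_eq_mul]
  push_cast
  ring

lemma av_step (f : W r m → ℝ) (h : ℕ) :
    (av f h - av f (h + 1)) ^ 2 ≤ (1 / PN r m h) *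
      ∑ p : Pr r m h, (f (mid h 0 p.1) - f (mid (h + 1) 0 (hi h p))) ^ 2 := by
  have e1 : av f h - av f (h + 1) = (1 / PN r m h) *
      ∑ p : Pr r m h, (f (mid h 0 p.1) - f (mid (h + 1) 0 (hi h p))) := by
    rw [Finset.sum_sub_distrib, sum_low h (fun x => f (mid h 0 x)),
      sum_high h (fun x => f (mid (h + 1) 0 x))]
    unfold av PN
    rw [N_succ (h + 1)]
    have h1 : (N r (h + 1) : ℝ) ≠ 0 := (N_pos' (h + 1)).ne'
    have h2 : (r (h + 1) : ℝ) + 1 ≠ 0 := by positivity
    have h3 : (m (h + 1) : ℝ) + 1 ≠ 0 := by positivity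
    have h4 : (m h : ℝ) + 1 ≠ 0 := by positivity
    field_simp
  have e2 : (∑ p : Pr r m h, (f (mid h 0 p.1) - f (mid (h + 1) 0 (hi h p)))) ^ 2
      ≤ PN r m h * ∑ p : Pr r m h, (f (mid h 0 p.1) - f (mid (h + 1) 0 (hi h p))) ^ 2 := by
    have := sq_sum_le_card_mul_sum_sq (s := (Finset.univ : Finset (Pr r m h)))
      (f := fun p => f (mid h 0 p.1) - f (mid (h + 1) 0 (hi h p)))
    rwa [Finset.card_univ, card_Pr] at this
  rw [e1, mul_pow]
  have h0 := PN_pos (r := r) (m := m) h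
  calc (1 / PN r m h) ^ 2 *
        (∑ p : Pr r m h, (f (mid h 0 p.1) - f (mid (h + 1) 0 (hi h p)))) ^ 2
      ≤ (1 / PN r m h) ^ 2 * (PN r m h *
        ∑ p : Pr r m h, (f (mid h 0 p.1) - f (mid (h + 1) 0 (hi h p))) ^ 2) :=
        mul_le_mul_of_nonneg_left e2 (sq_nonneg _)
    _ = _ := by field_simp

/-- Index set of the edges used by the flow. -/
abbrev Idx (r m : ℕ → ℕ) : Type := Σ h : ℕ, Pr r m h

def edge (q : Idx r m) : W r m × W r m := (mid q.1 0 q.2.1, mid (q.1 + 1) 0 (hi q.1 q.2))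

lemma edge_injective : Function.Injective (edge (r := r) (m := m)) := by
  rintro ⟨h, x, y⟩ ⟨h', x', y'⟩ e
  unfold edge at e
  rw [Prod.mk.injEq] at e
  obtain ⟨e1, _, e3⟩ := mid_inj e.1
  simp only at e1
  subst e1
  obtain ⟨_, _, e4⟩ := mid_inj e.2
  have e5 := eq_of_heq e3
  have e6 := eq_of_heq e4
  simp only at e5
  subst e5
  unfold hi at e6
  rw [Prod.mk.injEq] at e6
  have e7 := e6.2
  simp only at e7
  subst e7
  rfl

lemma cap_power {C : ℝ} (hC : ∀ H, ∑ h ∈ Finset.range H, 1 / PN r m h ≤ C)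
    (h00 : r 0 = 0) (m00 : m 0 = 0) {k : ℕ} (hk : 2 ≤ k) :
    Cap (power (can r m) k) (mid 0 0 ((), 0, 0)) C := by
  classical
  intro f hf
  -- a level beyond which f vanishes
  obtain ⟨H, hH⟩ : ∃ H : ℕ, ∀ x : Mid r m H, f (mid H 0 x) = 0 := by
    have h1 : (Sigma.fst '' (Function.support f)).Finite := hf.image _
    obtain ⟨B, hB⟩ := h1.bddAbove
    refine ⟨B + 1, fun x => ?_⟩
    by_contra hne
    have : B + 1 ≤ B := hB ⟨mid (B + 1) 0 x, hne, rfl⟩
    omega
  let T : Finset (Idx r m) := (Finset.range H).sigma (fun h => Finset.univ)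
  refine ⟨T.image edge, ?_, ?_⟩
  · intro p hp
    rw [Finset.mem_image] at hp
    obtain ⟨q, _, rfl⟩ := hp
    exact power_adj hk _ _
  · rw [Finset.sum_image (fun a _ b _ e => edge_injective e)]
    have hS : ∑ q ∈ T, (f (edge q).1 - f (edge q).2) ^ 2
        = ∑ h ∈ Finset.range H, ∑ p : Pr r m h,
          (f (mid h 0 p.1) - f (mid (h + 1) 0 (hi h p))) ^ 2 := by
      simp only [T]
      rw [Finset.sum_sigma]
      rfl
    rw [hS]
    have h0 : f (mid 0 0 ((), 0, 0)) = av f 0 := by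
      unfold av
      have hcard : Fintype.card (Mid r m 0) = 1 := by
        rw [Fintype.card_prod, Fintype.card_prod, card_S, Fintype.card_fin, Fintype.card_fin,
          h00, m00]
        rfl
      obtain ⟨x0, hx0⟩ := Fintype.card_eq_one_iff.1 hcard
      have e1 : ∑ x : Mid r m 0, f (mid 0 0 x) = f (mid 0 0 ((), 0, 0)) := by
        have e2 : ∀ x : Mid r m 0, f (mid 0 0 x) = f (mid 0 0 ((), 0, 0)) := by
          intro x
          rw [hx0 x, hx0 ((), 0, 0)]
        rw [Finset.sum_congr rfl (fun x _ => e2 x), Finset.sum_const, Finset.card_univ, hcard,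
          one_smul]
      have e3 : (N r (0 + 1) : ℝ) * ((m 0 : ℝ) + 1) = 1 := by
        rw [← card_Mid, hcard]
        norm_num
      rw [e1, e3, div_one]
    have hH0 : av f H = 0 := by
      unfold av
      rw [Finset.sum_eq_zero (fun x _ => hH x), zero_div]
    have htel : av f 0 = ∑ h ∈ Finset.range H, (av f h - av f (h + 1)) := by
      rw [Finset.sum_range_sub', hH0, sub_zero]
    rw [h0, htel]
    -- Cauchy-Schwarz
    have hcs := Finset.sum_sq_le_sum_mul_sum_of_sq_eq_mul (Finset.range H)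
      (r := fun h => (av f h - av f (h + 1)))
      (f := fun h : ℕ => 1 / PN r m h)
      (g := fun h : ℕ => PN r m h * (av f h - av f (h + 1)) ^ 2)
      (fun h _ => by have := PN_pos (r := r) (m := m) h; positivity)
      (fun h _ => by have := PN_pos (r := r) (m := m) h; positivity)
      (fun h _ => by
        have h1 : PN r m h ≠ 0 := (PN_pos h).ne'
        field_simp)
    refine hcs.trans ?_
    have hB : ∑ h ∈ Finset.range H, PN r m h * (av f h - av f (h + 1)) ^ 2
        ≤ ∑ h ∈ Finset.range H, ∑ p : Pr r m h,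
          (f (mid h 0 p.1) - f (mid (h + 1) 0 (hi h p))) ^ 2 := by
      apply Finset.sum_le_sum
      intro h _
      have h3 := av_step f h
      have h4 := PN_pos (r := r) (m := m) h
      calc _ ≤ PN r m h * ((1 / PN r m h) *
          ∑ p : Pr r m h, (f (mid h 0 p.1) - f (mid (h + 1) 0 (hi h p))) ^ 2) :=
            mul_le_mul_of_nonneg_left h3 h4.le
        _ = _ := by field_simp
    have hB0 : 0 ≤ ∑ h ∈ Finset.range H, PN r m h *
        (av f h - av f (h + 1)) ^ 2 := Finset.sum_nonneg (fun h _ => by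
          have := PN_pos (r := r) (m := m) h
          positivity)
    have hC0 : 0 ≤ C := by simpa using hC 0
    calc _ ≤ C * ∑ h ∈ Finset.range H, PN r m h *
        (av f h - av f (h + 1)) ^ 2 := mul_le_mul_of_nonneg_right (hC H) hB0
      _ ≤ _ := mul_le_mul_of_nonneg_left hB hC0

/-- Every power of order at least two of the graph is transient, from every vertex. -/
theorem power_transient {C : ℝ} (hC : ∀ H, ∑ h ∈ Finset.range H, 1 / PN r m h ≤ C)
    (h00 : r 0 = 0) (m00 : m 0 = 0) {k : ℕ} (hk : 2 ≤ k) (ρ : W r m) :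
    ¬ Recurrent (power (can r m) k) ρ := by
  have hC0 : 0 ≤ C := by simpa using hC 0
  obtain ⟨C', _, hC'⟩ := (cap_power hC h00 m00 hk).all (power_nice (by omega)).conn hC0 ρ
  exact not_recurrent_of_cap (power_nice (by omega)) hC'

end Pool.Agent.Y982.PW
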